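import Pool.Agent.H302R6.Main

/-!
# The restriction inequality: reduction to simple groups
-/

set_option autoImplicit false
set_option linter.unusedSectionVars false

namespace Pool.Agent.H302R10

open Pool.Agent.H302R2 Pool.Agent.H302R5 Pool.Agent.H302R6

universe u v

/-- Every Heilbronn function of degree at most `r` on `T` is constant. -/
def Rigid (r : ℕ) (T : Type u) [Group T] : Prop :=
  ∀ η : T → ℂ, IsHeilbronn η → ∀ s : ℕ, s ≤ r → η 1 = s → ∀ t, η t = η 1

/-- Some prime power `p ^ k` of every automorphism is inner, for one prime `p`: the outer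
automorphism group of `T` is a `p`-group. -/
def OutPGroup (T : Type u) [Group T] : Prop :=
  ∃ p : ℕ, p.Prime ∧ ∀ β : MulAut T, ∃ (k : ℕ) (s : T), β ^ (p ^ k) = MulAut.conj s

/-- The simple groups allowed as factors for degree `r`. -/
def Allowed (r : ℕ) (T : Type u) [Group T] : Prop :=
  (∃ n k : ℕ, 2 ≤ k ∧ r < (2 ^ k - 1) * (n / 2 ^ k) ∧ Nonempty (T ≃* alternatingGroup (Fin n))) ∨
  (IsSimpleGroup T ∧ (∃ a b : T, a * b ≠ b * a) ∧ OutPGroup T ∧ Rigid r T)

lemma OutPGroup.congr {S : Type u} {T : Type v} [Group S] [Group T] (e : S ≃* T)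
    (h : OutPGroup S) : OutPGroup T := by
  obtain ⟨p, hp, hO⟩ := h
  refine ⟨p, hp, fun β => ?_⟩
  obtain ⟨k, s, hks⟩ := hO ((MulAut.congr e).symm β)
  refine ⟨k, e s, ?_⟩
  have h1 := congrArg (MulAut.congr e) hks
  rw [map_pow, MulEquiv.apply_symm_apply] at h1
  rw [h1]
  ext y
  change e (s * (e.symm y) * s⁻¹) = e s * y * (e s)⁻¹
  rw [map_mul, map_mul, map_inv, MulEquiv.apply_symm_apply]

lemma Rigid.congr {S : Type u} {T : Type v} [Group S] [Group T] [Finite T] [Finite S] (e : S ≃* T)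
    {r : ℕ} (h : Rigid r S) : Rigid r T := by
  intro η hη s hs h1 t
  have h2 := h (fun x => η (e.toMonoidHom x)) (hη.comp e.toMonoidHom) s hs (by simpa using h1)
    (e.symm t)
  simpa using h2

lemma allowed_props {r : ℕ} (hr : 3 ≤ r) {T : Type u} [Group T] [Finite T] (h : Allowed r T) :
    IsSimpleGroup T ∧ (∀ t : T, (∀ s : T, s * t = t * s) → t = 1) ∧ OutPGroup T ∧ Rigid r T := by
  rcases h with ⟨n, k, hk, hlt, ⟨e⟩⟩ | ⟨h1, ⟨a, b, hab⟩, h2, h3⟩
  · have h7 := seven_le hr hk hlt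
    have hs : IsSimpleGroup (alternatingGroup (Fin n)) :=
      alternatingGroup.isSimpleGroup (by rw [Nat.card_eq_fintype_card, Fintype.card_fin]; omega)
    have hnt : Nontrivial T := e.toEquiv.nontrivial
    refine ⟨IsSimpleGroup.isSimpleGroup_of_surjective e.symm.toMonoidHom e.symm.surjective, ?_,
      ?_, ?_⟩
    · intro t ht
      have h1 : e t ∈ Subgroup.center (alternatingGroup (Fin n)) := by
        rw [Subgroup.mem_center_iff]
        intro g
        have := congrArg e (ht (e.symm g))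
        simpa using this
      rw [alternatingGroup.center_eq_bot (by
        rw [Nat.card_eq_fintype_card, Fintype.card_fin]; omega)] at h1
      have h2 := Subgroup.mem_bot.mp h1
      rw [← map_one e] at h2
      exact e.injective h2
    · refine OutPGroup.congr e.symm ⟨2, Nat.prime_two, fun β => out_alt ?_ β⟩
      rw [Fintype.card_fin]
      exact h7
    · refine Rigid.congr e.symm ?_
      intro η hη s hs h1 t
      exact alt_core (by omega) hk hη h1 (lt_of_le_of_lt hs hlt) t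
  · refine ⟨h1, ?_, h2, h3⟩
    intro t ht
    by_contra hcon
    have h4 : Subgroup.center T = ⊥ ∨ Subgroup.center T = ⊤ :=
      h1.eq_bot_or_eq_top_of_normal _ inferInstance
    have h5 : t ∈ Subgroup.center T := Subgroup.mem_center_iff.mpr ht
    rcases h4 with h4 | h4
    · rw [h4, Subgroup.mem_bot] at h5
      exact hcon h5
    · apply hab
      have h6 : b ∈ Subgroup.center T := by rw [h4]; exact Subgroup.mem_top b
      exact Subgroup.mem_center_iff.mp h6 a

/-- The chain induction. -/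
theorem chain_le {G : Type u} [Group G] [Finite G] {θ : G → ℂ} (hθ : IsHeilbronn θ) {r : ℕ}
    (hr : θ 1 = r) (hr3 : 3 ≤ r) (l : ℕ) (N : ℕ → Subgroup G) (h0 : N 0 = ⊥) (hl : N l = ⊤)
    (hnorm : ∀ j ≤ l, (N j).Normal) (hle : ∀ j < l, N j ≤ N (j + 1))
    (hlayer : ∀ j < l, (∀ a ∈ N (j + 1), ∀ b ∈ N (j + 1), a * b * a⁻¹ * b⁻¹ ∈ N j) ∨
      ∃ (m : ℕ) (T : Fin m → Type u) (_ : ∀ i, Group (T i)) (f : N (j + 1) →* (∀ i : Fin m, T i)),
        (∀ i, Allowed r (T i)) ∧ Function.Surjective f ∧ f.ker = (N j).subgroupOf (N (j + 1)))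
    (H : Subgroup G) {a b : ℕ} (ha : ∑ᶠ g : G, θ g = a * Nat.card G)
    (hb : ∑ᶠ h : H, θ h = b * Nat.card H) : a ≤ b := by
  classical
  have key : ∀ j ≤ l, ∀ c : ℕ, ∑ᶠ h : (H ⊔ N j : Subgroup G), θ h
      = c * Nat.card (H ⊔ N j : Subgroup G) → c ≤ b := by
    intro j
    induction j with
    | zero =>
      intro _ c hc
      rw [h0, sup_bot_eq, hb] at hc
      have hH : (Nat.card H : ℂ) ≠ 0 := by exact_mod_cast Nat.card_pos.ne'
      have := mul_right_cancel₀ hH hc
      have h1 : b = c := by exact_mod_cast this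
      exact h1.ge
    | succ j ih =>
      intro hj c hc
      have hjl : j < l := hj
      obtain ⟨c', hc'⟩ := hθ.mult (H ⊔ N j) 1
      simp only [MonoidHom.one_apply, inv_one, Units.val_one, mul_one] at hc'
      have h1 := ih hjl.le c' hc'
      have hM : (N j).Normal := hnorm j hjl.le
      have hN : (N (j + 1)).Normal := hnorm (j + 1) hj
      have hsup : (H ⊔ N j) ⊔ N (j + 1) = H ⊔ N (j + 1) := by
        rw [sup_assoc, sup_eq_right.mpr (hle j hjl)]
      rw [← hsup] at hc
      refine le_trans ?_ h1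
      rcases hlayer j hjl with hab | ⟨m, T, hT, f, hal, hf, hfk⟩
      · exact ded_abel hθ (N j) (N (j + 1)) (H ⊔ N j) hab le_sup_right hc' hc
      · have e0 : (N (j + 1) ⧸ f.ker) ≃* (∀ i : Fin m, T i) :=
          QuotientGroup.quotientKerEquivOfSurjective f hf
        have e1 : (N (j + 1) ⧸ (N j).subgroupOf (N (j + 1))) ≃* (N (j + 1) ⧸ f.ker) :=
          QuotientGroup.quotientMulEquivOfEq hfk.symm
        have hfin : ∀ i, Finite (T i) := by
          intro i
          refine Finite.of_surjective (fun x : N (j + 1) => f x i) ?_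
          intro t
          obtain ⟨x, hx⟩ := hf (Pi.mulSingle i t)
          exact ⟨x, by simp only [hx, Pi.mulSingle_eq_same]⟩
        have hp := fun i => allowed_props hr3 (hal i)
        exact (layer_simple hθ hr (N j) (N (j + 1)) (H ⊔ N j) le_sup_right (e1.trans e0)
          (fun i => (hp i).1) (fun i => (hp i).2.1) (fun i => (hp i).2.2.1)
          (fun i => (hp i).2.2.2) hc' hc).le
  apply key l le_rfl
  rw [hl, sup_top_eq]
  rw [Nat.card_congr Subgroup.topEquiv.toEquiv, ← ha]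
  exact finsum_eq_of_bijective (fun g : (⊤ : Subgroup G) => (g : G))
    Subgroup.topEquiv.bijective (fun g => rfl)

/-- The restriction inequality. -/
theorem dedekind_simple (G : Type u) [Group G] [Finite G] (θ : G → ℂ) (hθ : IsHeilbronn θ) (r : ℕ)
    (hr : θ 1 = r) (l : ℕ) (N : ℕ → Subgroup G) (h0 : N 0 = ⊥) (hl : N l = ⊤)
    (hnorm : ∀ j ≤ l, (N j).Normal) (hle : ∀ j < l, N j ≤ N (j + 1))
    (hlayer : ∀ j < l, (∀ a ∈ N (j + 1), ∀ b ∈ N (j + 1), a * b * a⁻¹ * b⁻¹ ∈ N j) ∨
      ∃ (m : ℕ) (T : Fin m → Type u) (_ : ∀ i, Group (T i)) (f : N (j + 1) →* (∀ i : Fin m, T i)),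
        (∀ i, Allowed r (T i)) ∧ Function.Surjective f ∧ f.ker = (N j).subgroupOf (N (j + 1)))
    (H : Subgroup G) (χ : G →* ℂˣ) (a b : ℕ)
    (ha : ∑ᶠ g : G, θ g * (((χ g)⁻¹ : ℂˣ) : ℂ) = a * Nat.card G)
    (hb : ∑ᶠ h : H, θ h * (((χ h)⁻¹ : ℂˣ) : ℂ) = b * Nat.card H) : a ≤ b := by
  rcases Nat.lt_or_ge r 3 with h | h
  · apply hθ.mult_le _ H χ a b ha hb
    rw [hr, Complex.natCast_re]
    exact_mod_cast Nat.lt_succ_iff.mp h
  · exact chain_le (hθ.twist χ) (by simp [hr]) h l N h0 hl hnorm hle hlayer H ha hb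

end Pool.Agent.H302R10
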