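import Pool.Agent.H302R9.Full
import Pool.Agent.H302R10.Ded
import Pool.Agent.H302R5.SymFinal
import Pool.Agent.H302R3.WeakTwo

/-!
# Weak Heilbronn functions: multiplicities of linear characters for groups with a chain
-/

set_option autoImplicit false
set_option linter.unusedSectionVars false

namespace Pool.Agent.H302R10

open Pool.Agent.H302R2 Pool.Agent.H302R3 Pool.Agent.H302R5 Pool.Agent.H302R6 Pool.Agent.H302R7
open Pool.Agent.H302R9

universe u v

/-- Every class function of degree at most `r` on `T` with nonnegative integer multiplicities on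
solvable subgroups is constant. -/
def RigidSol (r : ℕ) (T : Type u) [Group T] : Prop :=
  ∀ η : T → ℂ, IsSolHeilbronn η → ∀ s : ℕ, s ≤ r → η 1 = s → ∀ t, η t = η 1

/-- The simple groups allowed as factors for degree `r`. -/
def AllowedSol (r : ℕ) (T : Type u) [Group T] : Prop :=
  (∃ n k : ℕ, 2 ≤ k ∧ r < (2 ^ k - 1) * (n / 2 ^ k) ∧ Nonempty (T ≃* alternatingGroup (Fin n))) ∨
  (IsSimpleGroup T ∧ (∃ a b : T, a * b ≠ b * a) ∧ OutPGroup T ∧ RigidSol r T)

lemma RigidSol.congr {S : Type u} {T : Type v} [Group S] [Group T] [Finite T] [Finite S]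
    (e : S ≃* T) {r : ℕ} (h : RigidSol r S) : RigidSol r T := by
  intro η hη s hs h1 t
  have h2 := h (fun x => η (e.toMonoidHom x)) (hη.comp e.toMonoidHom) s hs (by simpa using h1)
    (e.symm t)
  simpa using h2

lemma allowedSol_props {r : ℕ} (hr : 3 ≤ r) {T : Type u} [Group T] [Finite T]
    (h : AllowedSol r T) :
    IsSimpleGroup T ∧ (∀ t : T, (∀ s : T, s * t = t * s) → t = 1) ∧ OutPGroup T ∧
      RigidSol r T := by
  rcases h with ⟨n, k, hk, hlt, ⟨e⟩⟩ | ⟨h1, ⟨a, b, hab⟩, h2, h3⟩
  · have h7 := seven_le hr hk hlt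
    have hs : IsSimpleGroup (alternatingGroup (Fin n)) :=
      alternatingGroup.isSimpleGroup (by rw [Nat.card_eq_fintype_card, Fintype.card_fin]; omega)
    have hnt : Nontrivial T := e.toEquiv.nontrivial
    refine ⟨IsSimpleGroup.isSimpleGroup_of_surjective e.symm.toMonoidHom e.symm.surjective, ?_,
      ?_, ?_⟩
    · intro t ht
      have h1 : e t ∈ Subgroup.center (alternatingGroup (Fin n)) := by
        rw [Subgroup.mem_center_iff]
        intro g
        have := congrArg e (ht (e.symm g))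
        simpa using this
      rw [alternatingGroup.center_eq_bot (by
        rw [Nat.card_eq_fintype_card, Fintype.card_fin]; omega)] at h1
      have h2 := Subgroup.mem_bot.mp h1
      rw [← map_one e] at h2
      exact e.injective h2
    · refine OutPGroup.congr e.symm ⟨2, Nat.prime_two, fun β => out_alt ?_ β⟩
      rw [Fintype.card_fin]
      exact h7
    · refine RigidSol.congr e.symm ?_
      intro η hη s hs h1 t
      exact alt_core' (by omega) hk hη h1 (lt_of_le_of_lt hs hlt) t
  · refine ⟨h1, ?_, h2, h3⟩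
    intro t ht
    by_contra hcon
    have h4 : Subgroup.center T = ⊥ ∨ Subgroup.center T = ⊤ :=
      h1.eq_bot_or_eq_top_of_normal _ inferInstance
    have h5 : t ∈ Subgroup.center T := Subgroup.mem_center_iff.mpr ht
    rcases h4 with h4 | h4
    · rw [h4, Subgroup.mem_bot] at h5
      exact hcon h5
    · apply hab
      have h6 : b ∈ Subgroup.center T := by rw [h4]; exact Subgroup.mem_top b
      exact Subgroup.mem_center_iff.mp h6 a

section

variable {G : Type u} [Group G] [Finite G]

/-- natural multiplicities of the linear characters of `U` -/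
def Nats (θ : G → ℂ) (U : Subgroup G) : Prop :=
  ∀ χ : U →* ℂˣ, ∃ n : ℕ, ∑ᶠ u : U, θ u * (((χ u)⁻¹ : ℂˣ) : ℂ) = (n : ℂ) * (Nat.card U : ℂ)

/-- an abelian layer -/
lemma step_abel {θ : G → ℂ} (M N : Subgroup G) [M.Normal] [N.Normal] (hMN : M ≤ N)
    (hab : ∀ a ∈ N, ∀ b ∈ N, a * b * a⁻¹ * b⁻¹ ∈ M)
    (hP : ∀ U : Subgroup G, M ≤ U → Group.IsSolvable (U.map (QuotientGroup.mk' M)) → Nats θ U)
    (U : Subgroup G) (hNU : N ≤ U) (hU : Group.IsSolvable (U.map (QuotientGroup.mk' N))) :
    Nats θ U := by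
  apply hP U (hMN.trans hNU)
  let q : G ⧸ M →* G ⧸ N := QuotientGroup.lift M (QuotientGroup.mk' N) (fun x hx => by
    rw [QuotientGroup.ker_mk']
    exact hMN hx)
  have hq : q.comp (QuotientGroup.mk' M) = QuotientGroup.mk' N := rfl
  let A := U.map (QuotientGroup.mk' M)
  have hA : A.map q = U.map (QuotientGroup.mk' N) := by
    change (U.map (QuotientGroup.mk' M)).map q = _
    rw [Subgroup.map_map, hq]
  have hs : Group.IsSolvable (A.map q) := by rw [hA]; exact hU
  refine sol_of_hom (q.subgroupMap A) (sol_of_comm ?_) hs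
  have key : ∀ x : A, x ∈ (q.subgroupMap A).ker → ∃ n ∈ N, (QuotientGroup.mk' M) n = (x : G ⧸ M) := by
    rintro ⟨_, u, hu, rfl⟩ hx
    refine ⟨u, ?_, rfl⟩
    have h1 : q (QuotientGroup.mk' M u) = 1 := congrArg Subtype.val (MonoidHom.mem_ker.mp hx)
    have h2 : QuotientGroup.mk' N u = 1 := h1
    rwa [← MonoidHom.mem_ker, QuotientGroup.ker_mk'] at h2
  rintro ⟨a, ha⟩ ⟨b, hb⟩
  obtain ⟨x, hx, hxa⟩ := key a ha
  obtain ⟨y, hy, hyb⟩ := key b hb
  apply Subtype.ext
  apply Subtype.ext
  change (a : G ⧸ M) * b = b * a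
  rw [← hxa, ← hyb]
  have h1 : QuotientGroup.mk' M (x * y * x⁻¹ * y⁻¹) = 1 := by
    rw [← MonoidHom.mem_ker, QuotientGroup.ker_mk']
    exact hab x hx y hy
  rwa [map_mul, map_mul, map_mul, map_inv, map_inv, mul_inv_eq_one, mul_inv_eq_iff_eq_mul] at h1

/-- a nonabelian layer -/
theorem step_simple {θ : G → ℂ} (hθ : IsSolHeilbronn θ) {r : ℕ} (hr3 : 3 ≤ r)
    (hr : θ 1 = r) (M N : Subgroup G) [M.Normal] [N.Normal] (hMN : M ≤ N)
    (hP : ∀ U : Subgroup G, M ≤ U → Group.IsSolvable (U.map (QuotientGroup.mk' M)) → Nats θ U)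
    {m : ℕ} (T : Fin m → Type u) [∀ i, Group (T i)] (f : N →* ∀ i, T i)
    (hal : ∀ i, AllowedSol r (T i)) (hf : Function.Surjective f)
    (hfk : f.ker = M.subgroupOf N)
    (U : Subgroup G) (hNU : N ≤ U) (hU : Group.IsSolvable (U.map (QuotientGroup.mk' N))) :
    Nats θ U := by
  classical
  intro χ
  have : Fintype U := Fintype.ofFinite _
  have hη : IsSolHeilbronn (fun u : U => θ u * (((χ u)⁻¹ : ℂˣ) : ℂ)) :=
    (hθ.comp U.subtype).twist χ
  set η : U → ℂ := fun u => θ u * (((χ u)⁻¹ : ℂˣ) : ℂ) with hηdef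
  have hη1 : η 1 = r := by simp [η, hr]
  let MU : Subgroup U := M.subgroupOf U
  let π : U →* U ⧸ MU := QuotientGroup.mk' MU
  have hπ : Function.Surjective π := QuotientGroup.mk'_surjective MU
  have hker : π.ker = MU := QuotientGroup.ker_mk' MU
  let ι : U ⧸ MU →* G ⧸ M := QuotientGroup.lift MU ((QuotientGroup.mk' M).comp U.subtype)
    (fun x hx => by
      change QuotientGroup.mk' M (x : G) = 1
      rw [← MonoidHom.mem_ker, QuotientGroup.ker_mk']
      exact hx)
  have hι : ι.comp π = (QuotientGroup.mk' M).comp U.subtype := rfl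
  have hθ' : IsSolHeilbronn (push π η) :=
    { conj := fun y c => push_conj π hπ hη.conj y c
      mult := by
        intro V hV ψ
        let W : Subgroup G := (V.comap π).map U.subtype
        have hMW : M ≤ W := by
          intro x hx
          have hxU : x ∈ U := hNU (hMN hx)
          refine ⟨⟨x, hxU⟩, ?_, rfl⟩
          change π ⟨x, hxU⟩ ∈ V
          have h1 : π ⟨x, hxU⟩ = 1 := by
            rw [← MonoidHom.mem_ker, hker]
            exact hx
          rw [h1]; exact one_mem V
        let e : V.comap π ≃* W :=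
          (V.comap π).equivMapOfInjective U.subtype U.subtype_injective
        have hWV : W.map (QuotientGroup.mk' M) = V.map ι := by
          change ((V.comap π).map U.subtype).map (QuotientGroup.mk' M) = V.map ι
          rw [Subgroup.map_map, ← hι, ← Subgroup.map_map,
            Subgroup.map_comap_eq_self_of_surjective hπ]
        have hWs : Group.IsSolvable (W.map (QuotientGroup.mk' M)) := by
          rw [hWV]
          exact Group.isSolvable_of_surjective (ι.subgroupMap_surjective V)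
        let ρ : V.comap π →* V :=
          { toFun := fun u => ⟨π u, u.2⟩
            map_one' := Subtype.ext (map_one π)
            map_mul' := fun a b => Subtype.ext (map_mul π _ _) }
        let χ' : V.comap π →* ℂˣ := (χ.comp (V.comap π).subtype) * (ψ.comp ρ)
        obtain ⟨n, hn⟩ := hP W hMW hWs (χ'.comp e.symm.toMonoidHom)
        refine ⟨n, ?_⟩
        have hk : (Nat.card π.ker : ℂ) ≠ 0 := by exact_mod_cast Nat.card_pos.ne'
        rw [sum_push π]
        have h2 : ∑ᶠ u : V.comap π, η u * (((ψ ⟨π u, u.2⟩)⁻¹ : ℂˣ) : ℂ)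
            = ∑ᶠ w : W, θ w * ((((χ'.comp e.symm.toMonoidHom) w)⁻¹ : ℂˣ) : ℂ) := by
          refine finsum_eq_of_bijective e e.bijective (fun u => ?_)
          have h3 : (χ'.comp e.symm.toMonoidHom) (e u) = χ u * ψ ⟨π u, u.2⟩ := by
            change χ' (e.symm (e u)) = _
            rw [MulEquiv.symm_apply_apply]
            rfl
          have h4 : ((e u : W) : G) = ((u : U) : G) := rfl
          rw [h3, h4, mul_inv]
          change θ (u : U) * (((χ u)⁻¹ : ℂˣ) : ℂ) * (((ψ ⟨π u, u.2⟩)⁻¹ : ℂˣ) : ℂ) = _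
          push_cast
          ring
        rw [h2, hn, ← Nat.card_congr e.toEquiv, card_comap hπ]
        push_cast
        field_simp }
  obtain ⟨c, hc⟩ := hθ'.exists_deg
  have hcr : c ≤ r := by
    have h1 : ‖(push π η) 1‖ ≤ (r : ℝ) := norm_push_one_le π fun g => by
      have := hη.norm_le g
      rwa [hη1, Complex.natCast_re] at this
    rw [hc, Complex.norm_natCast] at h1
    exact_mod_cast h1
  -- the product in the quotient
  let ψ₀ : N ⧸ M.subgroupOf N →* U ⧸ MU :=
    QuotientGroup.lift (M.subgroupOf N) (π.comp (Subgroup.inclusion hNU)) (by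
      intro x hx
      rw [Subgroup.mem_subgroupOf] at hx
      change π (Subgroup.inclusion hNU x) = 1
      rw [← MonoidHom.mem_ker, hker]
      exact hx)
  have hψmk : ∀ x : N, ψ₀ (QuotientGroup.mk x) = π (Subgroup.inclusion hNU x) := fun x => rfl
  have hψ : Function.Injective ψ₀ := by
    rw [injective_iff_map_eq_one]
    intro x hx
    induction x using QuotientGroup.induction_on with | _ x => ?_
    rw [hψmk, ← MonoidHom.mem_ker, hker] at hx
    rw [QuotientGroup.eq_one_iff, Subgroup.mem_subgroupOf]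
    exact hx
  have e0 : (N ⧸ f.ker) ≃* (∀ i : Fin m, T i) := QuotientGroup.quotientKerEquivOfSurjective f hf
  have e1 : (N ⧸ M.subgroupOf N) ≃* (N ⧸ f.ker) := QuotientGroup.quotientMulEquivOfEq hfk.symm
  have e : (N ⧸ M.subgroupOf N) ≃* (∀ i, T i) := e1.trans e0
  let φ : (∀ i, T i) →* U ⧸ MU := ψ₀.comp e.symm.toMonoidHom
  have hφ : Function.Injective φ := hψ.comp e.symm.injective
  have hrange : φ.range = (N.subgroupOf U).map π := by
    ext y
    constructor
    · rintro ⟨x, rfl⟩
      obtain ⟨z, hz⟩ : ∃ z : N, QuotientGroup.mk z = e.symm x := by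
        induction' e.symm x using QuotientGroup.induction_on with z
        exact ⟨z, rfl⟩
      refine ⟨Subgroup.inclusion hNU z, z.2, ?_⟩
      change π (Subgroup.inclusion hNU z) = ψ₀ (e.symm x)
      rw [← hz, hψmk]
    · rintro ⟨z, hz, rfl⟩
      refine ⟨e (QuotientGroup.mk (⟨z, hz⟩ : N)), ?_⟩
      change ψ₀ (e.symm (e _)) = _
      rw [MulEquiv.symm_apply_apply, hψmk]
      rfl
  have hNn : φ.range.Normal := by
    rw [hrange]
    exact Subgroup.Normal.map inferInstance π hπ
  have hfin : ∀ i, Finite (T i) := by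
    intro i
    refine Finite.of_surjective (fun x : N => f x i) ?_
    intro t
    obtain ⟨x, hx⟩ := hf (Pi.mulSingle i t)
    exact ⟨x, by simp only [hx, Pi.mulSingle_eq_same]⟩
  have hp := fun i => allowedSol_props hr3 (hal i)
  have hconst : ∀ x y, push π η (x * φ y) = push π η x := by
    intro x y
    refine prod_const' hθ' φ hφ hNn (fun i => (hp i).1) (fun i => (hp i).2.1)
      (fun i => (hp i).2.2.1) ?_ x y
    intro i t
    have h1 := (hp i).2.2.2 (fun t => push π η ((φ.comp (MonoidHom.mulSingle T i)) t))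
      (hθ'.comp (φ.comp (MonoidHom.mulSingle T i))) c hcr (by simp [hc]) t
    simpa using h1
  -- the quotient by the product
  let κ : U ⧸ MU →* G ⧸ N := QuotientGroup.lift MU ((QuotientGroup.mk' N).comp U.subtype)
    (fun x hx => by
      change QuotientGroup.mk' N (x : G) = 1
      rw [← MonoidHom.mem_ker, QuotientGroup.ker_mk']
      exact hMN hx)
  have hκ : κ.comp π = (QuotientGroup.mk' N).comp U.subtype := rfl
  have hκr : κ.range = U.map (QuotientGroup.mk' N) := by
    have h1 : (κ.comp π).range = κ.range := by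
      rw [MonoidHom.range_comp, MonoidHom.range_eq_top.mpr hπ, ← MonoidHom.range_eq_map]
    rw [← h1, hκ, MonoidHom.range_comp, Subgroup.range_subtype]
  have hκs : Group.IsSolvable κ.range := by rw [hκr]; exact hU
  have hQs : Group.IsSolvable ((U ⧸ MU) ⧸ κ.ker) :=
    Group.isSolvable_of_isSolvable_injective
      (f := (QuotientGroup.quotientKerEquivRange κ).toMonoidHom)
      (QuotientGroup.quotientKerEquivRange κ).injective
  have hcκ : ∀ n ∈ κ.ker, ∀ x, push π η (n * x) = push π η x := by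
    intro n hn x
    have h1 : x⁻¹ * n * x ∈ κ.ker := by
      have : κ.ker.Normal := inferInstance
      have h2 := this.conj_mem n hn x⁻¹
      rwa [inv_inv] at h2
    have h2 : x⁻¹ * n * x ∈ φ.range := by
      obtain ⟨u, hu⟩ := hπ (x⁻¹ * n * x)
      rw [hrange]
      refine ⟨u, ?_, hu⟩
      rw [← hu] at h1
      have h3 : QuotientGroup.mk' N (u : G) = 1 := MonoidHom.mem_ker.mp h1
      rw [← MonoidHom.mem_ker, QuotientGroup.ker_mk'] at h3
      exact h3
    obtain ⟨y, hy⟩ := h2
    have h3 : n * x = x * φ y := by rw [hy]; group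
    rw [h3]
    exact hconst x y
  have hfull := full_of_resid hθ' κ.ker hQs hcκ
  have : Fintype (U ⧸ MU) := Fintype.ofFinite _
  obtain ⟨n, hn⟩ := hfull.mult_hom (MonoidHom.id (U ⧸ MU)) 1
  refine ⟨n, ?_⟩
  have hk : (Nat.card π.ker : ℂ) ≠ 0 := by exact_mod_cast Nat.card_pos.ne'
  have h5 : ∑ y : U ⧸ MU, push π η y = (Nat.card π.ker : ℂ)⁻¹ * ∑ u : U, η u := by
    unfold push
    rw [← Finset.mul_sum, Finset.sum_comm]
    congr 1
    refine Finset.sum_congr rfl fun u _ => ?_
    rw [Finset.sum_eq_single (π u)]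
    · rw [if_pos rfl]
    · intro y _ hy
      rw [if_neg (fun h => hy h.symm)]
    · intro h; exact absurd (Finset.mem_univ _) h
  have h6 : ∑ y : U ⧸ MU, push π η y = (n : ℂ) * Nat.card (U ⧸ MU) := by
    rw [← hn]
    refine Finset.sum_congr rfl fun y _ => ?_
    simp
  rw [finsum_eq_sum_of_fintype]
  have h7 : ∑ u : U, η u = (Nat.card π.ker : ℂ) * ((n : ℂ) * Nat.card (U ⧸ MU)) := by
    rw [← h6, h5, mul_inv_cancel_left₀ hk]
  change ∑ u : U, η u = _
  rw [h7, card_eq_ker_mul hπ]
  push_cast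
  ring

/-- The chain induction. -/
theorem chain_nats {θ : G → ℂ} (hθ : IsSolHeilbronn θ) {r : ℕ}
    (hr : θ 1 = r) (hr3 : 3 ≤ r) (l : ℕ) (N : ℕ → Subgroup G) (h0 : N 0 = ⊥)
    (hnorm : ∀ j ≤ l, (N j).Normal) (hle : ∀ j < l, N j ≤ N (j + 1))
    (hlayer : ∀ j < l, (∀ a ∈ N (j + 1), ∀ b ∈ N (j + 1), a * b * a⁻¹ * b⁻¹ ∈ N j) ∨
      ∃ (m : ℕ) (T : Fin m → Type u) (_ : ∀ i, Group (T i)) (f : N (j + 1) →* (∀ i : Fin m, T i)),
        (∀ i, AllowedSol r (T i)) ∧ Function.Surjective f ∧
        f.ker = (N j).subgroupOf (N (j + 1))) :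
    ∀ j ≤ l, ∀ _ : (N j).Normal, ∀ U : Subgroup G, N j ≤ U →
      Group.IsSolvable (U.map (QuotientGroup.mk' (N j))) → Nats θ U := by
  intro j
  induction j with
  | zero =>
    intro _ hn U _ hU
    have : Group.IsSolvable U := by
      have hinj : Function.Injective (QuotientGroup.mk' (N 0)) := by
        rw [← MonoidHom.ker_eq_bot_iff, QuotientGroup.ker_mk', h0]
      let e := U.equivMapOfInjective (QuotientGroup.mk' (N 0)) hinj
      exact Group.isSolvable_of_isSolvable_injective (f := e.toMonoidHom) e.injective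
    exact fun χ => hθ.mult U this χ
  | succ j ih =>
    intro hj hn U hNU hU
    have hM : (N j).Normal := hnorm j (by omega)
    have hP := ih (by omega) hM
    rcases hlayer j hj with hab | ⟨m, T, hT, f, hal, hf, hfk⟩
    · exact step_abel (N j) (N (j + 1)) (hle j hj) hab hP U hNU hU
    · exact step_simple hθ hr3 hr (N j) (N (j + 1)) (hle j hj) hP T f hal hf hfk U hNU hU

/-- Multiplicities of linear characters. -/
theorem weak_main (θ : G → ℂ) (hθ : IsSolHeilbronn θ) (r : ℕ)
    (hr : θ 1 = r) (l : ℕ) (N : ℕ → Subgroup G) (h0 : N 0 = ⊥) (hl : N l = ⊤)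
    (hnorm : ∀ j ≤ l, (N j).Normal) (hle : ∀ j < l, N j ≤ N (j + 1))
    (hlayer : ∀ j < l, (∀ a ∈ N (j + 1), ∀ b ∈ N (j + 1), a * b * a⁻¹ * b⁻¹ ∈ N j) ∨
      ∃ (m : ℕ) (T : Fin m → Type u) (_ : ∀ i, Group (T i)) (f : N (j + 1) →* (∀ i : Fin m, T i)),
        (∀ i, AllowedSol r (T i)) ∧ Function.Surjective f ∧
        f.ker = (N j).subgroupOf (N (j + 1)))
    (χ : G →* ℂˣ) :
    ∃ m : ℕ, ∑ᶠ g : G, θ g * (((χ g)⁻¹ : ℂˣ) : ℂ) = (m : ℂ) * (Nat.card G : ℂ) := by
  classical
  have hfg : Fintype G := Fintype.ofFinite _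
  rcases Nat.lt_or_ge r 3 with h | h
  · have h1 : IsHeilbronn θ := hθ.isHeilbronn (by
      rw [hr, Complex.natCast_re]
      exact_mod_cast Nat.lt_succ_iff.mp h)
    obtain ⟨m, hm⟩ := h1.mult_hom (MonoidHom.id G) χ
    exact ⟨m, by rw [finsum_eq_sum_of_fintype]; exact hm⟩
  · have hn := hnorm l le_rfl
    have hs : Group.IsSolvable ((⊤ : Subgroup G).map (QuotientGroup.mk' (N l))) := by
      apply sol_of_comm
      rintro ⟨_, x, -, rfl⟩ ⟨_, y, -, rfl⟩
      have h2 : ∀ z : G, QuotientGroup.mk' (N l) z = 1 := by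
        intro z
        rw [← MonoidHom.mem_ker, QuotientGroup.ker_mk', hl]
        exact Subgroup.mem_top z
      apply Subtype.ext
      change QuotientGroup.mk' (N l) x * QuotientGroup.mk' (N l) y
        = QuotientGroup.mk' (N l) y * QuotientGroup.mk' (N l) x
      rw [h2, h2]
    obtain ⟨m, hm⟩ := chain_nats hθ hr h l N h0 hnorm hle hlayer l le_rfl hn ⊤ le_top hs
      (χ.comp (⊤ : Subgroup G).subtype)
    refine ⟨m, ?_⟩
    rw [Nat.card_congr Subgroup.topEquiv.toEquiv] at hm
    rw [← hm]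
    exact (finsum_eq_of_bijective (fun g : (⊤ : Subgroup G) => (g : G))
      Subgroup.topEquiv.bijective (fun g => rfl)).symm

end

end Pool.Agent.H302R10
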